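import Mathlib
import Pool.Agent.H84.GirCol

namespace Pool.Agent.Results.MP_b90bcc_co.Local

open Pool.Agent.H84.GirCol SimpleGraph

def IsTournament {V : Type} (A : V → V → Prop) : Prop :=
  (∀ u, ¬ A u u) ∧ ∀ u v, u ≠ v → (A u v ↔ ¬ A v u)

/-- The least number of transitive arc sets whose union is the arc set `A`. -/
noncomputable def pod {V : Type} (A : V → V → Prop) : ℕ :=
  sInf {m | ∃ P : Fin m → V → V → Prop, (∀ i a b c, P i a b → P i b c → P i a c) ∧
    ∀ a b, A a b ↔ ∃ i, P i a b}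

lemma two {n L : ℕ} {E : Set (Fin n × Fin n)} (h : Gir E L) (X : Finset (Fin n))
    (hX : X.card ≤ L) : ∃ c : X → Fin 2, ∀ a b : X, (a.1, b.1) ∈ E → c a ≠ c b := by
  let H : SimpleGraph X := fromRel fun a b => (a.1, b.1) ∈ E
  have k : ∀ a b : X, (a.1, b.1) ∈ E → ¬ (H.deleteEdges {s(a, b)}).Reachable a b := by
    intro a b e r
    obtain ⟨p, hp⟩ := r.exists_isPath
    have w : ∀ {x y : X} (q : (H.deleteEdges {s(a, b)}).Walk x y),
        Wk (E \ {(a.1, b.1)}) q.length x.1 y.1 := by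
      intro x y q
      induction q with
      | nil => exact .refl _ _
      | @cons x z y u q ih =>
        rw [deleteEdges_adj, fromRel_adj] at u
        refine .step (u.1.2.imp (fun v => ⟨v, fun t => u.2 ?_⟩) fun v => ⟨v, fun t => u.2 ?_⟩) ih
        · rw [Subtype.ext (Prod.mk.inj t).1, Subtype.ext (Prod.mk.inj t).2]; rfl
        · rw [Subtype.ext (Prod.mk.inj t).1, Subtype.ext (Prod.mk.inj t).2]; exact Sym2.eq_swap
    exact h _ e ((w p).mono (by have := hp.length_lt; simp at this; omega))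
  have : H.IsAcyclic := isAcyclic_iff_forall_adj_isBridge.2 fun a b u => by
    rcases ((fromRel_adj _ _ _).1 u).2 with e | e
    · exact k a b e
    · rw [Sym2.eq_swap]; exact k b a e
  obtain ⟨c⟩ := this.colorable_two
  refine ⟨c, fun a b e => c.valid ((fromRel_adj _ _ _).2 ⟨?_, .inl e⟩)⟩
  rintro rfl
  exact h _ e (.refl _ _)

lemma main (k N : ℕ) : ∃ (n : ℕ) (A : Fin n → Fin n → Prop), 0 < n ∧ IsTournament A ∧ N ≤ pod A ∧
    ∀ X : Finset (Fin n), X.card ≤ k → pod (fun a b : X => A a b) < 4 := by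
  classical
  obtain ⟨n, E, n0, g, hc⟩ := exists_graph (2 ^ N) (k + 3)
  let D : Fin n → Fin n → Prop := fun u v => (u, v) ∈ E ∨ (v, u) ∈ E
  have two' : ∀ X : Finset (Fin n), X.card ≤ k + 3 → ∃ c : X → Fin 2, ∀ a b : X, D a b → c a ≠ c b :=
    fun X hX => (two g X hX).imp fun c h a b e => e.elim (h a b) fun e => (h b a e).symm
  let A : Fin n → Fin n → Prop := fun u v => u < v ∧ ¬ D u v ∨ v < u ∧ D u v
  have irr : ∀ u, ¬ A u u := by simp [A]
  refine ⟨n, A, n0, ⟨irr, fun u v h => ?_⟩, le_csInf ?_ ?_, fun X hX => ?_⟩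
  · rcases h.lt_or_gt with h | h <;> simp [A, D, h, h.not_gt] <;> tauto
  · let e := Fintype.equivFin (Fin n × Fin n)
    refine ⟨_, fun i a b => e (a, b) = i ∧ A a b, fun i a b c p q => ?_, by simp⟩
    obtain rfl : a = b := (Prod.mk.inj (e.injective (p.1.trans q.1.symm))).1
    exact (irr _ p.2).elim
  · rintro m ⟨P, tr, cov⟩
    by_contra hm
    obtain ⟨f⟩ : Nonempty ((Fin m → Prop) ↪ Fin (2 ^ N + 1)) :=
      Function.Embedding.nonempty_of_card_le (by
        simpa using (Nat.pow_le_pow_right two_pos (not_le.1 hm).le).trans (Nat.le_succ _))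
    obtain ⟨⟨u, v⟩, e, q⟩ := hc fun v => f fun i => ∃ w < v, P i v w
    have key : ∀ u v, u < v → D u v →
        (fun i => ∃ w < u, P i u w) ≠ fun i => ∃ w < v, P i v w := fun u v l d q => by
      obtain ⟨i, p⟩ := (cov v u).1 (.inr ⟨l, d.symm⟩)
      obtain ⟨w, l', p'⟩ := (congrFun q i).mpr ⟨u, l, p⟩
      have d1 : D u w := (((cov u w).2 ⟨i, p'⟩).resolve_left fun h => l'.not_gt h.1).2
      have d2 : D v w :=
        (((cov v w).2 ⟨i, tr _ _ _ _ p p'⟩).resolve_left fun h => (l'.trans l).not_gt h.1).2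
      obtain ⟨c, h⟩ := two' {u, v, w} (Finset.card_le_three.trans (by omega))
      have h1 := h ⟨u, by simp⟩ ⟨v, by simp⟩ d
      have h2 := h ⟨u, by simp⟩ ⟨w, by simp⟩ d1
      have h3 := h ⟨v, by simp⟩ ⟨w, by simp⟩ d2
      omega
    rcases lt_trichotomy u v with l | rfl | l
    · exact key u v l (.inl e) (f.injective q)
    · exact g _ e (.refl _ _)
    · exact key v u l (.inr e) (f.injective q).symm
  · obtain ⟨c, h⟩ := two' X (by omega)
    refine lt_of_le_of_lt (Nat.sInf_le ?_) (by norm_num : 3 < 4)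
    refine ⟨![fun a b => A a b ∧ c a < c b, fun a b => A a b ∧ c b < c a,
      fun a b => a.1 < b.1 ∧ c a = c b], fun i a b d => ?_, fun a b => ?_⟩
    · fin_cases i
      · rintro ⟨_, _⟩ ⟨_, _⟩; omega
      · rintro ⟨_, _⟩ ⟨_, _⟩; omega
      · exact fun p q => ⟨p.1.trans q.1, p.2.trans q.2⟩
    · refine ⟨fun p => ?_, ?_⟩
      · rcases lt_trichotomy (c a) (c b) with l | l | l
        · exact ⟨0, p, l⟩
        · exact ⟨2, (p.resolve_right fun q => h a b q.2 l).1, l⟩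
        · exact ⟨1, p, l⟩
      · rintro ⟨i, p⟩
        fin_cases i
        exacts [p.1, p.1, .inl ⟨p.1, fun d => h a b d p.2⟩]

theorem result : ∃ k₀ > 0,
    (∃ n ≤ k₀, ∃ A : Fin n → Fin n → Prop, IsTournament A ∧ 4 ≤ pod A) ∧
    ∀ k N : ℕ, ∃ (n : ℕ) (A : Fin n → Fin n → Prop), IsTournament A ∧ N ≤ pod A ∧
      ∀ X : Finset (Fin n), X.card ≤ k → pod (fun a b : X => A a b) < 4 := by
  obtain ⟨n, A, n0, t, p, -⟩ := main 0 4
  refine ⟨n, n0, ⟨n, le_rfl, A, t, p⟩, fun k N => ?_⟩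
  obtain ⟨n, A, -, h⟩ := main k N
  exact ⟨n, A, h⟩

end Pool.Agent.Results.MP_b90bcc_co.Local
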